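import Mathlib
import Pool.Agent.R487.Recip

namespace Pool.Agent.Results.MP_375d90_nt.ThreeQuarters

open Polynomial

/-- `3/4` is a reciprocal density: there is `f ∈ F_2[x]` with `f(0) = 1`, `deg f ≥ 1` such that,
with `D = ord f` the least `D ≥ 1` with `f ∣ 1 + x^D` and `g = (1 + x^D) / f`, exactly three
quarters of the coefficients of `g` (counted among `D`) are nonzero. -/
theorem result :
    ∃ (f g : (ZMod 2)[X]) (D : ℕ), f.coeff 0 = 1 ∧ 1 ≤ f.natDegree ∧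
      IsLeast {E : ℕ | 0 < E ∧ f ∣ 1 + X ^ E} D ∧ f * g = 1 + X ^ D ∧
      (g.support.card : ℚ) / (D : ℚ) = 3 / 4 := by
  classical
  obtain ⟨F, Q, N, hN, hFQ, h0, h1, hr⟩ := R487.Recip.exists_pair
  have hne : ∃ E : ℕ, 0 < E ∧ F ∣ 1 + X ^ E := ⟨N, hN, ⟨Q, hFQ.symm⟩⟩
  have hleast : IsLeast {E : ℕ | 0 < E ∧ F ∣ 1 + X ^ E}
      (Nat.find hne) := ⟨Nat.find_spec hne, fun E hE => Nat.find_min' hne hE⟩
  obtain ⟨g, hg⟩ := (Nat.find_spec hne).2
  refine ⟨F, g, Nat.find hne, h0, h1, hleast, hg.symm, ?_⟩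
  rw [R487.Recip.density_eq F g Q _ N h1 hN hleast hg.symm hFQ, hr]

end Pool.Agent.Results.MP_375d90_nt.ThreeQuarters
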